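import Pool.Agent.Helper359_SD.Space

/-!
# A strong d-space none of whose nontrivial powers is a strong d-space

The space consists of a chain `d 0 < d 1 < ...` with supremum `s`, two points `x false`, `x true`,
points `e n` (above `d 0, ..., d n` and above both points `x b`), and points `k b i` (above `s` and
`x b`). An upper set `W` is open if `s ∈ W` implies that some `d n` is in `W`, and `k b i ∈ W`
implies `{n | e n ∈ W} ∈ F b i`, where `F false` and `F true` are two disjoint families of
nonprincipal ultrafilters on `ℕ`, each dense in the remainder of `ℕ`.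
-/

set_option autoImplicit false

open Set Topology

namespace Pool.Agent.Results.MP_e2e219_gt.SquareFails

open Pool.Agent.Helper359_SD

universe u

/-- There is a strong d-space `Y` such that for every index set `I` with at least two elements the
product `∏_{i ∈ I} Y` is not a strong d-space. -/
theorem result : ∃ (Y : Type) (_ : TopologicalSpace Y), StrongD Y ∧
    ∀ (I : Type u), Nontrivial I → ¬ StrongD (I → Y) := by
  classical
  obtain ⟨F, hF, hd, hne⟩ := exists_families
  refine ⟨Pt {C : Set ℕ // C.Infinite}, Pt.top F,
    Pt.strongD F hF fun b C hC => ⟨⟨C, hC⟩, hd b ⟨C, hC⟩⟩, ?_⟩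
  intro I hI
  let _ := Pt.top F
  obtain ⟨i₀, j₀, hij⟩ := exists_pair_ne I
  refine Pt.not_strongD F hF hne (id : (I → Pt {C : Set ℕ // C.Infinite}) → _) IsInducing.id
    (fun i => decide (i ≠ i₀)) i₀ j₀ (by simp) (by simpa using hij.symm)
    (fun n => ⟨fun _ => Pt.d n, rfl⟩) (fun n => ⟨fun _ => Pt.e n, rfl⟩)
    ⟨fun i => Pt.x (decide (i ≠ i₀)), rfl⟩

end Pool.Agent.Results.MP_e2e219_gt.SquareFails
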